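import Pool.Agent.N239.Conv.Free
import Pool.Agent.N239.Conv.Pass
import Pool.Agent.N239.Conv.Num

set_option autoImplicit false
open FreeGroup Pool.Agent.N239.Conv
open scoped ENNReal Classical

namespace Pool.Agent.Results.MP_830418_an.FreeSubgroups

variable {G : Type} [Group G] (φ : FreeGroup (Fin 2) →* G)

/-- powers of the first and the second generator -/
def aa (i : ℕ) : G := φ (of 0) ^ i
def bb (i : ℕ) : G := φ (of 1) ^ i

/-- the kernel -/
noncomputable def FF : G → ℝ≥0∞ :=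
  Pool.Agent.N239.Conv.ker cc nn mm (fun i => (aa φ i)⁻¹) (fun j => (bb φ j)⁻¹)

theorem FF_inv (w : G) :
    FF φ w⁻¹ = Pool.Agent.N239.Conv.ker cc mm nn (bb φ) (aa φ) w := by
  unfold FF Pool.Agent.N239.Conv.ker
  refine tsum_congr (fun k => ?_)
  congr 1
  unfold blk
  rw [Finset.sum_comm]
  refine Finset.sum_congr rfl (fun j _ => Finset.sum_congr rfl (fun i _ => ?_))
  congr 1
  rw [mul_inv_rev, inv_inv, inv_inv, eq_iff_iff, inv_eq_iff_eq_inv]

theorem up1 (hφ : Function.Injective φ) {p : ℝ} (h1 : 1 < p) (h2 : p ≤ 2) :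
    ∃ K : ℝ≥0∞, K ≠ ∞ ∧ ∀ η, NN p (cv (FF φ) η) ≤ K * NN p η := by
  refine ⟨_, ?_, fun η => NN_cv_ker_le (by linarith) cc nn mm _ _ _ η (fun k =>
    upper h1.le (nn k) (mm k) _ _ (PP φ) ?_ ?_ η)⟩
  · exact ENNReal.mul_ne_top (ENNReal.rpow_ne_top_of_nonneg (by linarith) (by norm_num))
      (sum1 h1 h2)
  · intro g i j hi hj
    exact uniq0 φ hφ g i j hi hj
  · intro g i j hi hj
    rw [inv_inv] at hi hj
    exact uniq1 φ hφ g i j hi hj

theorem up2 (hφ : Function.Injective φ) {p : ℝ} (h2 : 2 ≤ p) :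
    ∃ K : ℝ≥0∞, K ≠ ∞ ∧ ∀ η, NN p (cv (fun w => FF φ w⁻¹) η) ≤ K * NN p η := by
  simp_rw [FF_inv]
  refine ⟨_, ?_, fun η => NN_cv_ker_le (by linarith) cc mm nn _ _ _ η (fun k =>
    upper (by linarith) (mm k) (nn k) _ _ (PP φ)ᶜ ?_ ?_ η)⟩
  · exact ENNReal.mul_ne_top (ENNReal.rpow_ne_top_of_nonneg (by linarith) (by norm_num))
      (sum2 h2)
  · intro g i j hi hj
    rw [Set.notMem_compl_iff] at hi hj
    exact uniq1 φ hφ g i j hi hj
  · intro g i j hi hj
    exact uniq0 φ hφ g i j hi hj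

theorem FF_fin (hφ : Function.Injective φ) (x : G) : FF φ x ≠ ∞ := by
  obtain ⟨K, hK, h⟩ := up1 φ hφ (p := 2) (by norm_num) le_rfl
  exact fin_of_bound (by norm_num) _ K hK h x

/-- the test set for `f` -/
noncomputable def tst (n m : ℕ) : Finset G :=
  (Finset.range m ×ˢ Finset.range (2 * n)).image (fun q => (bb φ q.1)⁻¹ * aa φ q.2)

theorem low1 (hφ : Function.Injective φ) {p : ℝ} (h2 : 2 < p) {K : ℝ≥0∞} (hK : K ≠ ∞)
    (h : ∀ s : Finset G, NN p (cv (FF φ) (fun x => if x ∈ s then 1 else 0)) ≤ K * s.card) :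
    False := by
  refine grow (δ := p - 2) (A := 2 * p) (by linarith) (K := K * E 1)
    (ENNReal.mul_ne_top hK (E_ne_top _)) (fun k => ?_)
  set s := tst φ (nn k) (mm k) with hs
  set t : Finset G := (Finset.range (nn k)).image (fun r => aa φ (nn k + r)) with ht
  have hcard : s.card ≤ mm k * (2 * nn k) := by
    refine Finset.card_image_le.trans ?_
    rw [Finset.card_product, Finset.card_range, Finset.card_range]
  have htc : t.card = nn k := by
    rw [ht, Finset.card_image_of_injective, Finset.card_range]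
    intro r r' hr
    have := (pow_inj φ hφ (j := 0) (j' := 0) (r := nn k + r) (r' := nn k + r')
      (by simpa [aa] using hr)).2
    omega
  have hval : ∀ g ∈ t, cc k * ((nn k : ℝ≥0∞) * mm k) ≤
      cv (FF φ) (fun x => if x ∈ s then 1 else 0) g := by
    intro g hg
    rw [ht, Finset.mem_image] at hg
    obtain ⟨r, hr, rfl⟩ := hg
    rw [Finset.mem_range] at hr
    unfold FF
    rw [cv_ker]
    refine le_trans ?_ (ENNReal.le_tsum k)
    gcongr
    unfold Av
    have : ∀ i ∈ Finset.range (nn k), ∀ j ∈ Finset.range (mm k),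
        (if (bb φ j)⁻¹ * ((aa φ i)⁻¹ * aa φ (nn k + r)) ∈ s then (1 : ℝ≥0∞) else 0) = 1 := by
      intro i hi j hj
      rw [Finset.mem_range] at hi
      rw [if_pos]
      rw [hs, tst, Finset.mem_image]
      refine ⟨(j, nn k + r - i), ?_, ?_⟩
      · rw [Finset.mem_product, Finset.mem_range, Finset.mem_range]
        exact ⟨Finset.mem_range.1 hj, by simp only; omega⟩
      · simp only
        congr 1
        unfold aa
        rw [eq_inv_mul_iff_mul_eq, ← pow_add]
        congr 1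
        omega
    rw [Finset.sum_congr rfl (fun i hi => Finset.sum_congr rfl (fun j hj => this i hi j hj))]
    simp
  have hb := (NN_ge (by linarith) _ t _ hval).trans (h s)
  rw [htc] at hb
  have hb2 : (nn k : ℝ≥0∞) * (cc k * ((nn k : ℝ≥0∞) * mm k)) ^ p ≤
      K * ((mm k : ℝ≥0∞) * (E 1 * nn k)) := by
    refine hb.trans ?_
    gcongr
    rw [E_one]
    exact_mod_cast hcard
  rw [nn_eq, mm_eq, cc] at hb2
  simp only [E_mul, E_rpow] at hb2
  have hb3 := E_div hb2
  have e : E ((p - 2) * (k : ℝ) ^ 2 - 2 * p * k) =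
      E (2 * (k : ℝ) ^ 3 + (-(2 * k + k ^ 2 + 2 * k ^ 3) + (2 * k ^ 3 + 2 * k ^ 2)) * p -
        (2 * k ^ 2 + (1 + 2 * k ^ 3))) * E 1 := by
    rw [E_mul]
    congr 1
    ring
  rw [e]
  gcongr

theorem low2 (hφ : Function.Injective φ) {p : ℝ} (h1 : 1 < p) (h2 : p < 2) {K : ℝ≥0∞}
    (hK : K ≠ ∞)
    (h : ∀ s : Finset G, NN p (cv (fun w => FF φ w⁻¹) (fun x => if x ∈ s then 1 else 0)) ≤
      K * s.card) :
    False := by
  refine grow (δ := 2 - p) (A := 2 * p) (by linarith) (K := K * E 1)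
    (ENNReal.mul_ne_top hK (E_ne_top _)) (fun k => ?_)
  set s : Finset G := (Finset.range (2 * nn k)).image (aa φ) with hs
  set t : Finset G := (Finset.range (mm k) ×ˢ Finset.range (nn k)).image
    (fun q => (bb φ q.1)⁻¹ * aa φ q.2) with ht
  have hcard : s.card ≤ 2 * nn k := by
    refine Finset.card_image_le.trans ?_
    rw [Finset.card_range]
  have htc : t.card = mm k * nn k := by
    rw [ht, Finset.card_image_of_injective, Finset.card_product, Finset.card_range,
      Finset.card_range]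
    intro q q' hq
    have := pow_inj φ hφ (j := q.1) (j' := q'.1) (r := q.2) (r' := q'.2) hq
    exact Prod.ext this.1 this.2
  have hval : ∀ g ∈ t, cc k * (nn k : ℝ≥0∞) ≤
      cv (fun w => FF φ w⁻¹) (fun x => if x ∈ s then 1 else 0) g := by
    intro g hg
    rw [ht, Finset.mem_image] at hg
    obtain ⟨⟨j, r⟩, hjr, rfl⟩ := hg
    rw [Finset.mem_product, Finset.mem_range, Finset.mem_range] at hjr
    simp only at hjr
    simp_rw [FF_inv]
    rw [cv_ker]
    refine le_trans ?_ (ENNReal.le_tsum k)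
    gcongr
    unfold Av
    refine le_trans ?_ (Finset.single_le_sum (f := fun j' => ∑ i ∈ Finset.range (nn k),
      (if aa φ i * (bb φ j' * ((bb φ j)⁻¹ * aa φ r)) ∈ s then (1 : ℝ≥0∞) else 0))
      (fun _ _ => zero_le) (Finset.mem_range.2 hjr.1))
    have : ∀ i ∈ Finset.range (nn k),
        (if aa φ i * (bb φ j * ((bb φ j)⁻¹ * aa φ r)) ∈ s then (1 : ℝ≥0∞) else 0) = 1 := by
      intro i hi
      rw [Finset.mem_range] at hi
      rw [if_pos]
      rw [hs, Finset.mem_image]
      refine ⟨i + r, ?_, ?_⟩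
      · rw [Finset.mem_range]
        omega
      · rw [mul_inv_cancel_left]
        unfold aa
        rw [pow_add]
    rw [Finset.sum_congr rfl this]
    simp
  have hb := (NN_ge (by linarith) _ t _ hval).trans (h s)
  rw [htc] at hb
  have hb2 : ((mm k : ℝ≥0∞) * nn k) * (cc k * (nn k : ℝ≥0∞)) ^ p ≤
      K * (E 1 * nn k) := by
    refine (le_of_eq ?_).trans (hb.trans ?_)
    · push_cast
      rfl
    · gcongr
      rw [E_one]
      exact_mod_cast hcard
  rw [nn_eq, mm_eq, cc] at hb2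
  simp only [E_mul, E_rpow] at hb2
  have hb3 := E_div hb2
  have e : E ((2 - p) * (k : ℝ) ^ 2 - 2 * p * k) =
      E (2 * (k : ℝ) ^ 2 + 2 * k ^ 3 + (-(2 * k + k ^ 2 + 2 * k ^ 3) + 2 * k ^ 3) * p -
        (1 + 2 * k ^ 3)) * E 1 := by
    rw [E_mul]
    congr 1
    ring
  rw [e]
  gcongr

/-- The involution `f^*`, `f^*(x) = conj (f (x⁻¹))`. -/
noncomputable def star (f : G → ℂ) (x : G) : ℂ := starRingEnd ℂ (f x⁻¹)

theorem star_eq (F : G → ℝ≥0∞) : star (fun x => ((F x).toReal : ℂ)) =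
    fun x => (((fun w => F w⁻¹) x).toReal : ℂ) := by
  funext x
  simp [star]

/-- Every group which contains a nonabelian free group has a nonnegative function which is a
`p`-convolver exactly for `1 < p ≤ 2`, while its involution is one exactly for `p ≥ 2`. -/
theorem result (G : Type) [Group G] (φ : FreeGroup (Fin 2) →* G) (hφ : Function.Injective φ) :
    ∃ f : G → ℝ, (∀ x, 0 ≤ f x) ∧ ∀ p : ℝ, 1 < p →
      (IsConvolver p (fun x => (f x : ℂ)) ↔ p ≤ 2) ∧
      (IsConvolver p (star (fun x => (f x : ℂ))) ↔ 2 ≤ p) := by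
  refine ⟨fun x => (FF φ x).toReal, fun x => ENNReal.toReal_nonneg, fun p hp => ⟨⟨?_, ?_⟩,
    ⟨?_, ?_⟩⟩⟩
  · intro h
    by_contra h2
    push Not at h2
    obtain ⟨K, hK, hb⟩ := bound_of_isConvolver (by linarith) _ (FF_fin φ hφ) h
    exact low1 φ hφ h2 hK hb
  · intro h2
    obtain ⟨K, hK, hb⟩ := up1 φ hφ hp h2
    exact isConvolver_of_bound (by linarith) _ K hK (FF_fin φ hφ) hb
  · intro h
    by_contra h2
    push Not at h2
    rw [star_eq] at h
    obtain ⟨K, hK, hb⟩ := bound_of_isConvolver (by linarith) _ (fun x => FF_fin φ hφ x⁻¹) h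
    exact low2 φ hφ hp h2 hK hb
  · intro h2
    rw [star_eq]
    obtain ⟨K, hK, hb⟩ := up2 φ hφ h2
    exact isConvolver_of_bound (by linarith) _ K hK (fun x => FF_fin φ hφ x⁻¹) hb

end Pool.Agent.Results.MP_830418_an.FreeSubgroups
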